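import Pool.Agent.Helper88.Ric.HNStmts

/-!
MP_092777_ag, module HNBB: Taylor polynomials of `sinh z / z` and `cosh z`, duplication.
-/

set_option autoImplicit false

noncomputable section

namespace RicP

/-- geometric bound of the tail of a series of positive terms -/
theorem hnbb_tail (f : ℕ → ℝ) (s A : ℝ) (hf : HasSum f s) (h0 : ∀ n, 0 ≤ f n)
    (h6 : ∀ n, f (n + 6) ≤ A * (1 / 100) ^ n) :
    |s - ∑ i ∈ Finset.range 6, f i| ≤ A * (100 / 99) := by
  have hs := hf.summable
  have h1 := hs.sum_add_tsum_nat_add 6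
  rw [hf.tsum_eq] at h1
  have hs6 : Summable (fun n => f (n + 6)) := (summable_nat_add_iff 6).2 hs
  have hg : HasSum (fun n : ℕ => A * (1 / 100 : ℝ) ^ n) (A * (1 - 1 / 100)⁻¹) :=
    (hasSum_geometric_of_lt_one (by norm_num) (by norm_num)).mul_left A
  have h2 : ∑' n, f (n + 6) ≤ A * (1 - 1 / 100)⁻¹ := by
    rw [← hg.tsum_eq]
    exact hs6.tsum_le_tsum h6 hg.summable
  have h3 : 0 ≤ ∑' n, f (n + 6) := tsum_nonneg fun n => h0 _
  have h4 : s - ∑ i ∈ Finset.range 6, f i = ∑' n, f (n + 6) := by linarith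
  rw [h4, abs_of_nonneg h3]
  refine h2.trans_eq ?_
  norm_num

theorem hnbb_fac (n k : ℕ) (hk : 10 ≤ k) : ((2 * n + k).factorial : ℝ) ≥ k.factorial * 100 ^ n := by
  induction n with
  | zero => simp
  | succ n ih =>
    have h1 : (2 * (n + 1) + k).factorial = (2 * n + k + 2) * ((2 * n + k + 1)
        * (2 * n + k).factorial) := by
      rw [show 2 * (n + 1) + k = (2 * n + k + 1) + 1 by ring, Nat.factorial_succ,
        Nat.factorial_succ]
    rw [h1]
    push_cast
    have h2 : (10 : ℝ) ≤ 2 * n + k + 1 := by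
      have : (10 : ℝ) ≤ k := by exact_mod_cast hk
      have : (0 : ℝ) ≤ n := Nat.cast_nonneg n
      linarith
    have h3 : (100 : ℝ) ≤ (2 * n + k + 2) * (2 * n + k + 1) := by nlinarith
    have h4 : (0 : ℝ) ≤ k.factorial * 100 ^ n := by positivity
    calc (k.factorial : ℝ) * 100 ^ (n + 1) = 100 * (k.factorial * 100 ^ n) := by ring
      _ ≤ ((2 * n + k + 2) * (2 * n + k + 1)) * (2 * n + k).factorial :=
          mul_le_mul h3 ih h4 (by positivity)
      _ = _ := by ring

theorem hnbb_term (t : ℝ) (ht0 : 0 ≤ t) (ht1 : t ≤ 1) (n k : ℕ) (hk : 10 ≤ k) :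
    t ^ (n + 6) / ((2 * n + k).factorial : ℝ) ≤ t ^ 6 / k.factorial * (1 / 100) ^ n := by
  have h1 : (0 : ℝ) < k.factorial * 100 ^ n := by positivity
  have h2 : t ^ (n + 6) ≤ t ^ 6 := by
    rw [pow_add]
    have := pow_le_one₀ (n := n) ht0 ht1
    have h6 : (0 : ℝ) ≤ t ^ 6 := by positivity
    nlinarith
  calc t ^ (n + 6) / ((2 * n + k).factorial : ℝ)
      ≤ t ^ 6 / (k.factorial * 100 ^ n) :=
        div_le_div₀ (by positivity) h2 h1 (hnbb_fac n k hk)
    _ = _ := by
      rw [one_div, inv_pow, ← div_eq_mul_inv, div_div]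

theorem hnbb_pow (t : ℝ) (ht0 : 0 ≤ t) (ht1 : t ≤ 6845 / 8000) : t ^ 6 ≤ 0.3925 := by
  calc t ^ 6 ≤ (6845 / 8000) ^ 6 := pow_le_pow_left₀ ht0 ht1 6
    _ ≤ 0.3925 := by norm_num

theorem st_HNBB : ST_HNBB := by
  intro L hL0 hL1
  have hz0 : 0 < L / 2 := by linarith
  have hsz : 0 < Real.sinh (L / 2) := Real.sinh_pos_iff.2 hz0
  have hcz : 0 < Real.cosh (L / 2) := Real.cosh_pos _
  have ht0 : (0 : ℝ) ≤ L ^ 2 / 4 := by positivity
  have ht1 : L ^ 2 / 4 ≤ 6845 / 8000 := by nlinarith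
  have ht2 : L ^ 2 / 4 ≤ 1 := ht1.trans (by norm_num)
  have hp := hnbb_pow _ ht0 ht1
  have hzz : (L / 2) ^ 2 = L ^ 2 / 4 := by ring
  have hzn : L / 2 ≠ 0 := hz0.ne'
  refine ⟨Real.sinh (L / 2) / (L / 2), Real.cosh (L / 2), ?_, ?_, ?_, ?_, ?_, ?_, ?_⟩
  · have h := (Real.hasSum_sinh (L / 2)).div_const (L / 2)
    have h' : HasSum (fun n : ℕ => (L ^ 2 / 4) ^ n / ((2 * n + 1).factorial : ℝ))
        (Real.sinh (L / 2) / (L / 2)) := by
      refine h.congr_fun ?_
      intro n
      rw [← hzz, ← pow_mul, pow_succ]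
      field_simp
    have h2 := hnbb_tail _ _ ((L ^ 2 / 4) ^ 6 / (13 : ℕ).factorial) h' (fun n => by positivity)
      (fun n => by
        have := hnbb_term _ ht0 ht2 n 13 (by norm_num)
        rw [show 2 * (n + 6) + 1 = 2 * n + 13 by ring]
        exact this)
    have h3 : ∑ i ∈ Finset.range 6, (L ^ 2 / 4) ^ i / ((2 * i + 1).factorial : ℝ)
        = tS (L ^ 2 / 4) := by
      simp only [Finset.sum_range_succ, Finset.sum_range_zero, tS]
      norm_num [Nat.factorial]
      ring
    rw [h3] at h2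
    refine h2.trans ?_
    have h4 : (L ^ 2 / 4) ^ 6 / ((13 : ℕ).factorial : ℝ) ≤ 0.3925 / 6227020800 := by
      rw [show ((13 : ℕ).factorial : ℝ) = 6227020800 by norm_num [Nat.factorial]]
      exact div_le_div_of_nonneg_right hp (by norm_num)
    refine (mul_le_mul_of_nonneg_right h4 (by norm_num)).trans ?_
    norm_num
  · have h' : HasSum (fun n : ℕ => (L ^ 2 / 4) ^ n / ((2 * n).factorial : ℝ))
        (Real.cosh (L / 2)) := by
      refine (Real.hasSum_cosh (L / 2)).congr_fun ?_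
      intro n
      rw [← hzz, ← pow_mul]
    have h2 := hnbb_tail _ _ ((L ^ 2 / 4) ^ 6 / (12 : ℕ).factorial) h' (fun n => by positivity)
      (fun n => by
        have := hnbb_term _ ht0 ht2 n 12 (by norm_num)
        rw [show 2 * (n + 6) = 2 * n + 12 by ring]
        exact this)
    have h3 : ∑ i ∈ Finset.range 6, (L ^ 2 / 4) ^ i / ((2 * i).factorial : ℝ)
        = tC (L ^ 2 / 4) := by
      simp only [Finset.sum_range_succ, Finset.sum_range_zero, tC]
      norm_num [Nat.factorial]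
      ring
    rw [h3] at h2
    refine h2.trans ?_
    have h4 : (L ^ 2 / 4) ^ 6 / ((12 : ℕ).factorial : ℝ) ≤ 0.3925 / 479001600 := by
      rw [show ((12 : ℕ).factorial : ℝ) = 479001600 by norm_num [Nat.factorial]]
      exact div_le_div_of_nonneg_right hp (by norm_num)
    refine (mul_le_mul_of_nonneg_right h4 (by norm_num)).trans ?_
    norm_num
  · positivity
  · unfold bb2
    field_simp
  · unfold bb3
    field_simp
  · unfold bb4
    have := Real.cosh_sq (L / 2)
    rw [show 3 * Real.cosh (L / 2) ^ 2 - Real.sinh (L / 2) ^ 2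
      = 2 * (Real.cosh (L / 2) * Real.cosh (L / 2)) + 1 by linarith]
    field_simp
  · intro C2 S4 C4 hC2 hS4 hC4
    have e1 : C2 = Real.cosh L := by
      have := Real.cosh_two_mul (L / 2)
      rw [show 2 * (L / 2) = L by ring] at this
      have h2 := Real.cosh_sq (L / 2)
      rw [hC2, this]
      linarith
    have e2 : C4 = Real.cosh (2 * L) := by
      have := Real.cosh_two_mul L
      have h2 := Real.cosh_sq L
      rw [hC4, e1, this]
      linarith
    have e3 : S4 = Real.sinh (2 * L) / (2 * L) := by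
      have h1 := Real.sinh_two_mul L
      have h2 := Real.sinh_two_mul (L / 2)
      rw [show 2 * (L / 2) = L by ring] at h2
      rw [hS4, e1, h1, h2]
      field_simp
    have h2L : 0 < 2 * L := by linarith
    have hs2 : 0 < Real.sinh (2 * L) := Real.sinh_pos_iff.2 h2L
    have hLn : L ≠ 0 := hL0.ne'
    rw [e2, e3]
    refine ⟨by positivity, ?_, ?_, ?_⟩
    · unfold bb2
      field_simp
    · unfold bb3
      field_simp
    · unfold bb4
      have := Real.cosh_sq (2 * L)
      rw [show 3 * Real.cosh (2 * L) ^ 2 - Real.sinh (2 * L) ^ 2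
        = 2 * (Real.cosh (2 * L) * Real.cosh (2 * L)) + 1 by linarith]
      field_simp

end RicP
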