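import Pool.Agent.Helper88.Ric.Stmts

set_option autoImplicit false

open scoped ContDiff Manifold Topology MatrixGroups LinearAlgebra.Projectivization
open Complex

noncomputable section

namespace RicP

/-- the key identity -/
theorem RCLO_key (M : ModData) (t : ℝ) (γ : SL(2, ℤ)) (ζ' : ℂ) (τ : ℂ) (hτ : 0 < τ.im)
    (hj : jj γ τ ≠ 0) :
    jj γ τ * sF M t ζ' (mob γ τ) = sF M t (ζ' * M.χ γ) τ
      + (t : ℂ) * ((((ζ' * M.V₁ γ).re : ℝ) : ℂ) * τ + (((ζ' * M.V₂ γ).re : ℝ) : ℂ)) := by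
  have h1 := M.period₁ γ τ hτ
  have h2 := M.period₂ γ τ hτ
  set a : ℤ := γ 0 0 with ha
  set b : ℤ := γ 0 1 with hb
  set c : ℤ := γ 1 0 with hc
  set d : ℤ := γ 1 1 with hd
  have hj' : jj γ τ = (c : ℂ) * τ + d := rfl
  have hm : mob γ τ = ((a : ℂ) * τ + b) / jj γ τ := rfl
  -- multiply by ζ' and take real parts
  have e1 : (ζ' * M.F₁ (mob γ τ)).re * (a : ℝ) + (ζ' * M.F₂ (mob γ τ)).re * (c : ℝ)
      = (ζ' * M.χ γ * M.F₁ τ).re + (ζ' * M.V₁ γ).re := by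
    have := congrArg (fun w => (ζ' * w).re) h1
    have l : ζ' * (M.F₁ (mob γ τ) * (a : ℂ) + M.F₂ (mob γ τ) * (c : ℂ))
        = (ζ' * M.F₁ (mob γ τ)) * (((a : ℤ) : ℝ) : ℂ) + (ζ' * M.F₂ (mob γ τ)) * (((c : ℤ) : ℝ) : ℂ) := by
      push_cast; ring
    have r : ζ' * ((M.χ γ : ℂ) * M.F₁ τ + M.V₁ γ) = ζ' * M.χ γ * M.F₁ τ + ζ' * M.V₁ γ := by ring
    rw [l, r, Complex.add_re, Complex.add_re, Complex.re_mul_ofReal, Complex.re_mul_ofReal] at this
    exact this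
  have e2 : (ζ' * M.F₁ (mob γ τ)).re * (b : ℝ) + (ζ' * M.F₂ (mob γ τ)).re * (d : ℝ)
      = (ζ' * M.χ γ * M.F₂ τ).re + (ζ' * M.V₂ γ).re := by
    have := congrArg (fun w => (ζ' * w).re) h2
    have l : ζ' * (M.F₁ (mob γ τ) * (b : ℂ) + M.F₂ (mob γ τ) * (d : ℂ))
        = (ζ' * M.F₁ (mob γ τ)) * (((b : ℤ) : ℝ) : ℂ) + (ζ' * M.F₂ (mob γ τ)) * (((d : ℤ) : ℝ) : ℂ) := by
      push_cast; ring
    have r : ζ' * ((M.χ γ : ℂ) * M.F₂ τ + M.V₂ γ) = ζ' * M.χ γ * M.F₂ τ + ζ' * M.V₂ γ := by ring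
    rw [l, r, Complex.add_re, Complex.add_re, Complex.re_mul_ofReal, Complex.re_mul_ofReal] at this
    exact this
  have e1' : (((ζ' * M.F₁ (mob γ τ)).re : ℝ) : ℂ) * (a : ℂ)
      + (((ζ' * M.F₂ (mob γ τ)).re : ℝ) : ℂ) * (c : ℂ)
      = (((ζ' * M.χ γ * M.F₁ τ).re : ℝ) : ℂ) + (((ζ' * M.V₁ γ).re : ℝ) : ℂ) := by
    exact_mod_cast e1
  have e2' : (((ζ' * M.F₁ (mob γ τ)).re : ℝ) : ℂ) * (b : ℂ)
      + (((ζ' * M.F₂ (mob γ τ)).re : ℝ) : ℂ) * (d : ℂ)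
      = (((ζ' * M.χ γ * M.F₂ τ).re : ℝ) : ℂ) + (((ζ' * M.V₂ γ).re : ℝ) : ℂ) := by
    exact_mod_cast e2
  have hjm : jj γ τ * mob γ τ = (a : ℂ) * τ + b := by
    rw [hm]; field_simp
  unfold sF
  calc jj γ τ * ((t : ℂ) * ((((ζ' * M.F₁ (mob γ τ)).re : ℝ) : ℂ) * mob γ τ
        + (((ζ' * M.F₂ (mob γ τ)).re : ℝ) : ℂ)))
      = (t : ℂ) * ((((ζ' * M.F₁ (mob γ τ)).re : ℝ) : ℂ) * (jj γ τ * mob γ τ)
        + (((ζ' * M.F₂ (mob γ τ)).re : ℝ) : ℂ) * jj γ τ) := by ring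
    _ = (t : ℂ) * (((((ζ' * M.F₁ (mob γ τ)).re : ℝ) : ℂ) * (a : ℂ)
      + (((ζ' * M.F₂ (mob γ τ)).re : ℝ) : ℂ) * (c : ℂ)) * τ
      + ((((ζ' * M.F₁ (mob γ τ)).re : ℝ) : ℂ) * (b : ℂ)
      + (((ζ' * M.F₂ (mob γ τ)).re : ℝ) : ℂ) * (d : ℂ))) := by
        rw [hjm, hj']; ring
    _ = _ := by rw [e1', e2']; ring

/-- points of the same node chart point are related -/
theorem RCLO_same (hBOR : ST_BOR) (hDU : ST_DU) (M : ModData) (N : ℕ) (hN : NOK N) (t : ℝ)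
    (q : QN M N) (k : ZMod N) (p x₀ x₁ : E) (h0 : D0 k p x₀) (h1 : D0 k p x₁) :
    GR M t q q x₀ x₁ := by
  obtain ⟨h4, h8⟩ := hN
  have hN1 : 1 ≤ N := by omega
  obtain ⟨j, m, hj, hm⟩ := (hDU N hN1 k p x₀ x₁ h0).1 h1
  set γ : SL(2, ℤ) := ModularGroup.T ^ ((N : ℤ) * j) with hγ
  have hmat : (γ : Matrix (Fin 2) (Fin 2) ℤ) = !![1, (N : ℤ) * j; 0, 1] := by
    rw [hγ, ModularGroup.coe_T_zpow]
  have g00 : γ 0 0 = 1 := by rw [hmat]; simp
  have g01 : γ 0 1 = (N : ℤ) * j := by rw [hmat]; simp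
  have g10 : γ 1 0 = 0 := by rw [hmat]; simp
  have g11 : γ 1 1 = 1 := by rw [hmat]; simp
  have hb : γ ∈ borel := g10
  obtain ⟨s, _, hs1, _, hjm, hV1, hV2, _, hN1'⟩ := hBOR M γ hb
  have hs : s = 1 := by rw [g00] at hs1; exact hs1.symm
  subst hs
  have hone : hN M N γ = 1 := hN1' N h4 rfl ⟨j, g01⟩
  have hχ : M.χ γ = 1 := by
    have := congrArg Prod.snd hone
    simpa [hN] using this
  have hpos : 0 < x₀.1.im := h0.1
  have hjj : jj γ x₀.1 = 1 := by rw [(hjm x₀.1).1]; simp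
  have hmob : mob γ x₀.1 = x₁.1 := by
    rw [(hjm x₀.1).2, g01, hj]; push_cast; ring
  refine ⟨γ, 0, m, ?_, hmob.symm, ?_⟩
  · rw [hone, mul_one]
  · have key := RCLO_key M t γ (zet M q) x₀.1 hpos (by rw [hjj]; exact one_ne_zero)
    rw [hV1, hV2, hjj, hmob, hχ] at key
    simp only [Units.val_one, mul_one, mul_zero, Complex.zero_re, Complex.ofReal_zero,
      zero_mul, add_zero, one_mul] at key
    rw [hjj, key, hm]
    push_cast
    ring

theorem RCLO_RDD_closed {N : ℕ} (k k' : ZMod N) : IsClosed {z : E × E | RDD k k' z.1 z.2} := by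
  have h1 : IsClosed {z : E × E | k = k' ∧ z.1 = z.2} := by
    by_cases hk : k = k'
    · simp only [hk, true_and]
      exact isClosed_eq continuous_fst continuous_snd
    · simp [hk]
  have h2 : IsClosed {z : E × E | k = k' + 1 ∧ z.2.1 * z.1.2 = 1 ∧ z.2.2 = z.1.1 * z.1.2 ^ 2} := by
    by_cases hk : k = k' + 1
    · simp only [hk, true_and]
      exact (isClosed_eq (by fun_prop) (by fun_prop)).inter (isClosed_eq (by fun_prop) (by fun_prop))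
    · simp [hk]
  have h3 : IsClosed {z : E × E | k' = k + 1 ∧ z.1.1 * z.2.2 = 1 ∧ z.2.1 = z.1.1 ^ 2 * z.1.2} := by
    by_cases hk : k' = k + 1
    · simp only [hk, true_and]
      exact (isClosed_eq (by fun_prop) (by fun_prop)).inter (isClosed_eq (by fun_prop) (by fun_prop))
    · simp [hk]
  exact h1.union (h2.union h3)

/-- lower bound for `|XY|` -/
theorem RCLO_low (hHT : ST_HT) (hBOR : ST_BOR) (M : ModData) (N : ℕ) (hN : NOK N) (t : ℝ)
    (q q' : QN M N) (k : ZMod N) (x x₀ p : E) (hx : x ∈ UH N) (hD : D0 k p x₀)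
    (hR : GR M t q q' x x₀) : Real.exp (-1) ≤ ‖p.1 * p.2‖ := by
  obtain ⟨h4, h8⟩ := hN
  have hNr : (8 : ℝ) ≤ N := by exact_mod_cast h8
  have hNpos : (0 : ℝ) < N := by linarith
  obtain ⟨hx1, hx2⟩ := hx
  have hxpos : 0 < x.1.im := by linarith
  obtain ⟨γ, m, n, _, hm, _⟩ := hR
  have hpi := Real.pi_pos
  have hpi2 : Real.pi < 3.15 := Real.pi_lt_d2
  have key : 2 * Real.pi * x₀.1.im / N ≤ 1 := by
    rw [div_le_iff₀ hNpos, one_mul]
    by_cases hb : γ ∈ borel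
    · obtain ⟨s, _, _, _, hjm, _⟩ := hBOR M γ hb
      have : x₀.1.im = x.1.im := by
        rw [hm, (hjm x.1).2]
        simp
      rw [this]
      rw [div_lt_iff₀ hNpos] at hx2
      linarith
    · have h3 := (hHT γ x.1 hxpos).2.2
      have : x.1.im * x₀.1.im ≤ 1 := by
        by_contra hcon
        push Not at hcon
        rw [hm] at hcon
        exact hb (h3 hcon)
      have h5 : x₀.1.im ≤ 5 / 4 := by
        by_contra hcon
        push Not at hcon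
        nlinarith [hD.1]
      nlinarith
  have hnorm : ‖p.1 * p.2‖ = Real.exp (-(2 * Real.pi * x₀.1.im / N)) := by
    rw [← hD.2.1, Complex.norm_exp]
    congr 1
    have : (2 * Real.pi * I * x₀.1 / N : ℂ) = ((2 * Real.pi / N : ℝ) : ℂ) * (I * x₀.1) := by
      push_cast; ring
    rw [this, Complex.re_ofReal_mul]
    simp
    ring
  rw [hnorm]
  exact Real.exp_le_exp.2 (by linarith)

theorem RCLO_mix (hGREQ : ST_GREQ) (hGCLO : ST_GCLO) (hDL : ST_DL) (hHT : ST_HT) (hBOR : ST_BOR)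
    (hDU : ST_DU) (M : ModData) (N : ℕ) (hN : NOK N) (t : ℝ) (q : QN M N) (c : Cusp M N)
    (k : ZMod N) (x p : E) (hx : x ∈ UH N) (hp : p ∈ UD)
    (hcl : (x, p) ∈ closure {z : E × E | z.1 ∈ UH N ∧ z.2 ∈ UD ∧
      ∃ x₀, D0 k z.2 x₀ ∧ GR M t q (cout M c) z.1 x₀}) :
    ∃ x₀, D0 k p x₀ ∧ GR M t q (cout M c) x x₀ := by
  set S : Set (E × E) := {z : E × E | z.1 ∈ UH N ∧ z.2 ∈ UD ∧
      ∃ x₀, D0 k z.2 x₀ ∧ GR M t q (cout M c) z.1 x₀} with hS
  have hN1 : 1 ≤ N := by have := hN.2; omega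
  -- `|XY|` is bounded below
  have hlow : Real.exp (-1) ≤ ‖p.1 * p.2‖ := by
    have hc : IsClosed {z : E × E | Real.exp (-1) ≤ ‖z.2.1 * z.2.2‖} :=
      isClosed_le continuous_const (by fun_prop)
    have hsub : S ⊆ {z : E × E | Real.exp (-1) ≤ ‖z.2.1 * z.2.2‖} := by
      rintro z ⟨h1, _, x₀, h3, h4⟩
      exact RCLO_low hHT hBOR M N hN t q (cout M c) k z.1 x₀ z.2 h1 h3 h4
    exact (closure_minimal hsub hc) hcl
  have hne : p.1 * p.2 ≠ 0 := by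
    intro h
    rw [h, norm_zero] at hlow
    exact absurd (Real.exp_pos (-1)) (not_lt.2 hlow)
  have hlt : ‖p.1 * p.2‖ < 1 := by
    have := hp.2.2
    linarith
  obtain ⟨⟨x₀, hx₀⟩, hloc⟩ := hDL N hN1 k p hne hlt
  obtain ⟨h, hps, hhp, hD, hcd, _⟩ := hloc x₀ hx₀
  refine ⟨x₀, hx₀, ?_⟩
  have hxim : 0 < x.1.im := by have := hx.1; linarith
  refine hGCLO M N t q (cout M c) x x₀ hxim hx₀.1 ?_
  have hcont : ContinuousAt (fun z : E × E => (z.1, h z.2)) (x, p) := by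
    refine ContinuousAt.prodMk continuous_fst.continuousAt ?_
    have h1 : ContinuousAt h p := h.continuousAt hps
    exact ContinuousAt.comp (f := fun z : E × E => z.2) (x := (x, p)) h1 continuous_snd.continuousAt
  rw [mem_closure_iff_frequently] at hcl ⊢
  have hT : Filter.Tendsto (fun z : E × E => (z.1, h z.2)) (𝓝 (x, p)) (𝓝 (x, x₀)) := by
    have := hcont.tendsto
    simpa [hhp] using this
  refine hT.frequently ?_
  have hev : ∀ᶠ z : E × E in 𝓝 (x, p), z.2 ∈ h.source :=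
    continuous_snd.continuousAt.eventually (h.open_source.mem_nhds hps)
  refine (hcl.and_eventually hev).mono ?_
  rintro z ⟨⟨h1, h2, x₂, h3, h4⟩, hz⟩
  have hzim : 0 < z.1.1.im := by have := h1.1; linarith
  have hDz := (hD z.2 hz).2.2
  refine ⟨hzim, hDz.1, ?_⟩
  have hsame := RCLO_same hBOR hDU M N hN t (cout M c) k z.2 x₂ (h z.2) h3 hDz
  exact (hGREQ M N t).2.2 q (cout M c) (cout M c) z.1 x₂ (h z.2) hzim h4 hsame

theorem st_RCLO (hGREQ : ST_GREQ) (hGCLO : ST_GCLO) (hDL : ST_DL) (hHT : ST_HT) (hBOR : ST_BOR)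
    (hDU : ST_DU) : ST_RCLO := by
  intro M N hN t i j x hx y hy hcl
  rcases i with q | ⟨c, k⟩ <;> rcases j with q' | ⟨c', k'⟩
  · have hxim : 0 < x.1.im := by have := hx.1; linarith
    have hyim : 0 < y.1.im := by have := hy.1; linarith
    refine hGCLO M N t q q' x y hxim hyim (closure_mono ?_ hcl)
    rintro z ⟨h1, h2, h3⟩
    refine ⟨?_, ?_, h3⟩
    · have := h1.1; linarith
    · have := h2.1; linarith
  · exact RCLO_mix hGREQ hGCLO hDL hHT hBOR hDU M N hN t q c' k' x y hx hy hcl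
  · refine RCLO_mix hGREQ hGCLO hDL hHT hBOR hDU M N hN t q' c k y x hy hx ?_
    have := (Homeomorph.prodComm E E).continuous.continuousAt (x := (x, y))
    rw [mem_closure_iff_frequently] at hcl ⊢
    have hT : Filter.Tendsto (fun z : E × E => (z.2, z.1)) (𝓝 (x, y)) (𝓝 (y, x)) :=
      (continuous_snd.prodMk continuous_fst).continuousAt.tendsto
    refine hT.frequently (hcl.mono ?_)
    rintro z ⟨h1, h2, h3⟩
    exact ⟨h2, h1, h3⟩
  · by_cases hc : c = c'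
    · have hsub : {z : E × E | z.1 ∈ Uof (M := M) (Sum.inr (c, k)) ∧
          z.2 ∈ Uof (M := M) (Sum.inr (c', k')) ∧
          ricR M t (Sum.inr (c, k)) z.1 (Sum.inr (c', k')) z.2} ⊆ {z : E × E | RDD k k' z.1 z.2} := by
        rintro z ⟨_, _, h3⟩
        exact h3.2
      exact ⟨hc, closure_minimal hsub (RCLO_RDD_closed k k') hcl⟩
    · exfalso
      obtain ⟨z, _, _, h3⟩ := (closure_nonempty_iff.1 ⟨_, hcl⟩)
      exact hc h3.1

end RicP
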