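import Pool.Agent.Helper88.Ric.Stmts

set_option autoImplicit false

open scoped ContDiff Manifold Topology MatrixGroups LinearAlgebra.Projectivization
open Complex

noncomputable section

namespace RicP

/-- general term -/
def SMF_g (a : ℝ) (j : ℕ) (m : ℤ) (p : ℝ × ℝ) : ℂ :=
  (m : ℂ) ^ j * cexp (((-(a * (m : ℝ) ^ 2 * p.1) : ℝ) : ℂ) + ((2 * Real.pi * m * p.2 : ℝ) : ℂ) * I)

/-- the theta series and its derivatives -/
def SMF_f (a : ℝ) (j : ℕ) (p : ℝ × ℝ) : ℂ := ∑' m : ℤ, SMF_g a j m p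

def SMF_L1 : ℝ × ℝ →L[ℝ] ℂ := Complex.ofRealCLM.comp (ContinuousLinearMap.fst ℝ ℝ ℝ)
def SMF_L2 : ℝ × ℝ →L[ℝ] ℂ := Complex.ofRealCLM.comp (ContinuousLinearMap.snd ℝ ℝ ℝ)

theorem SMF_norm_g (a : ℝ) (j : ℕ) (m : ℤ) (p : ℝ × ℝ) :
    ‖SMF_g a j m p‖ = |(m : ℝ)| ^ j * Real.exp (-(a * (m : ℝ) ^ 2 * p.1)) := by
  unfold SMF_g
  rw [norm_mul, norm_pow, Complex.norm_intCast, Complex.norm_exp]
  have : (((-(a * (m : ℝ) ^ 2 * p.1) : ℝ) : ℂ) + ((2 * Real.pi * m * p.2 : ℝ) : ℂ) * I).re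
      = -(a * (m : ℝ) ^ 2 * p.1) := by
    simp only [Complex.add_re, Complex.ofReal_re, Complex.mul_re, Complex.ofReal_im,
      Complex.I_re, Complex.I_im, mul_zero, zero_mul, sub_self, add_zero]
  rw [this]

theorem SMF_bound (a : ℝ) (ha : 0 < a) (j : ℕ) (m : ℤ) (α₀ : ℝ) (p : ℝ × ℝ)
    (hp : α₀ < p.1) :
    ‖SMF_g a j m p‖ ≤ |(m : ℝ)| ^ j * Real.exp (-(a * (m : ℝ) ^ 2 * α₀)) := by
  rw [SMF_norm_g]
  refine mul_le_mul_of_nonneg_left (Real.exp_le_exp.2 ?_) (by positivity)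
  have : a * (m : ℝ) ^ 2 * α₀ ≤ a * (m : ℝ) ^ 2 * p.1 :=
    mul_le_mul_of_nonneg_left hp.le (by positivity)
  linarith

theorem SMF_summ (a : ℝ) (ha : 0 < a) (j : ℕ) (α₀ : ℝ) (h0 : 0 < α₀) :
    Summable (fun m : ℤ => |(m : ℝ)| ^ j * Real.exp (-(a * (m : ℝ) ^ 2 * α₀))) := by
  have h := summable_pow_mul_jacobiTheta₂_term_bound 0 (T := a * α₀ / Real.pi)
    (by positivity) j
  refine h.congr ?_
  intro m
  have : -Real.pi * (a * α₀ / Real.pi * (m : ℝ) ^ 2 - 2 * 0 * |(m : ℝ)|)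
      = -(a * (m : ℝ) ^ 2 * α₀) := by
    field_simp
    ring
  push_cast
  rw [this]

theorem SMF_summ_g (a : ℝ) (ha : 0 < a) (j : ℕ) (p : ℝ × ℝ) (hp : 0 < p.1) :
    Summable (fun m : ℤ => SMF_g a j m p) :=
  Summable.of_norm_bounded (SMF_summ a ha j (p.1 / 2) (by linarith))
    (fun m => SMF_bound a ha j m (p.1 / 2) p (by linarith))

/-- derivative of a term -/
def SMF_g' (a : ℝ) (j : ℕ) (m : ℤ) (p : ℝ × ℝ) : ℝ × ℝ →L[ℝ] ℂ :=
  (-(a : ℂ) * SMF_g a (j + 2) m p) • SMF_L1 + (2 * Real.pi * I * SMF_g a (j + 1) m p) • SMF_L2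

theorem SMF_hasF (a : ℝ) (j : ℕ) (m : ℤ) (p : ℝ × ℝ) :
    HasFDerivAt (SMF_g a j m) (SMF_g' a j m p) p := by
  have h1 : HasFDerivAt (fun p : ℝ × ℝ => ((-(a * (m : ℝ) ^ 2 * p.1) : ℝ) : ℂ)
      + ((2 * Real.pi * m * p.2 : ℝ) : ℂ) * I)
      ((-(a : ℂ) * (m : ℂ) ^ 2) • SMF_L1 + (2 * Real.pi * m * I) • SMF_L2) p := by
    have e : (fun p : ℝ × ℝ => ((-(a * (m : ℝ) ^ 2 * p.1) : ℝ) : ℂ)
        + ((2 * Real.pi * m * p.2 : ℝ) : ℂ) * I)
        = fun p => ((-(a : ℂ) * (m : ℂ) ^ 2) • SMF_L1 + (2 * Real.pi * m * I) • SMF_L2) p := by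
      funext p
      simp [SMF_L1, SMF_L2]
      ring
    rw [e]
    exact ContinuousLinearMap.hasFDerivAt _
  have h2 := (h1.cexp).const_mul ((m : ℂ) ^ j)
  refine h2.congr_fderiv ?_
  unfold SMF_g' SMF_g
  refine ContinuousLinearMap.ext fun v => ?_
  simp only [FunLike.coe_smul, Pi.smul_apply, FunLike.coe_add, Pi.add_apply, smul_eq_mul]
  ring

theorem SMF_norm_L1 : ‖SMF_L1‖ ≤ 1 := by
  refine ContinuousLinearMap.opNorm_le_bound _ zero_le_one (fun v => ?_)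
  simp only [SMF_L1, ContinuousLinearMap.comp_apply, ContinuousLinearMap.coe_fst',
    Complex.ofRealCLM_apply, Complex.norm_real, one_mul]
  exact norm_fst_le v

theorem SMF_norm_L2 : ‖SMF_L2‖ ≤ 1 := by
  refine ContinuousLinearMap.opNorm_le_bound _ zero_le_one (fun v => ?_)
  simp only [SMF_L2, ContinuousLinearMap.comp_apply, ContinuousLinearMap.coe_snd',
    Complex.ofRealCLM_apply, Complex.norm_real, one_mul]
  exact norm_snd_le v

theorem SMF_hasF_f (a : ℝ) (ha : 0 < a) (j : ℕ) (p : ℝ × ℝ) (hp : 0 < p.1) :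
    HasFDerivAt (SMF_f a j)
      ((-(a : ℂ) * SMF_f a (j + 2) p) • SMF_L1 + (2 * Real.pi * I * SMF_f a (j + 1) p) • SMF_L2)
      p := by
  set α₀ := p.1 / 2 with hα
  have hα0 : 0 < α₀ := by rw [hα]; linarith
  have hs : IsOpen {q : ℝ × ℝ | α₀ < q.1} := isOpen_lt continuous_const continuous_fst
  have hc : IsPreconnected {q : ℝ × ℝ | α₀ < q.1} := by
    have : Convex ℝ {q : ℝ × ℝ | α₀ < q.1} := by
      have := (convex_Ioi α₀).linear_preimage (LinearMap.fst ℝ ℝ ℝ)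
      exact this
    exact this.isPreconnected
  have hu : Summable (fun m : ℤ => a * (|(m : ℝ)| ^ (j + 2) * Real.exp (-(a * (m : ℝ) ^ 2 * α₀)))
      + 2 * Real.pi * (|(m : ℝ)| ^ (j + 1) * Real.exp (-(a * (m : ℝ) ^ 2 * α₀)))) :=
    ((SMF_summ a ha (j + 2) α₀ hα0).mul_left a).add
      ((SMF_summ a ha (j + 1) α₀ hα0).mul_left (2 * Real.pi))
  have hmem : p ∈ {q : ℝ × ℝ | α₀ < q.1} := by
    show p.1 / 2 < p.1
    linarith
  have key := hasFDerivAt_tsum_of_isPreconnected (𝕜 := ℝ) hu hs hc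
    (fun m q _ => SMF_hasF a j m q) (fun m q hq => ?_) hmem (SMF_summ_g a ha j p hp) hmem
  · have e : (∑' m : ℤ, SMF_g' a j m p)
        = (-(a : ℂ) * SMF_f a (j + 2) p) • SMF_L1
          + (2 * Real.pi * I * SMF_f a (j + 1) p) • SMF_L2 := by
      have h1 := (((SMF_summ_g a ha (j + 2) p hp).hasSum).mul_left (-(a : ℂ))).smul_const SMF_L1
      have h2 := (((SMF_summ_g a ha (j + 1) p hp).hasSum).mul_left
        (2 * Real.pi * I : ℂ)).smul_const SMF_L2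
      exact (h1.add h2).tsum_eq
    rw [← e]
    exact key
  · unfold SMF_g'
    refine (norm_add_le _ _).trans (add_le_add ?_ ?_)
    · rw [norm_smul, norm_mul, norm_neg, Complex.norm_real, Real.norm_of_nonneg ha.le, mul_assoc]
      refine mul_le_mul_of_nonneg_left ?_ ha.le
      calc ‖SMF_g a (j + 2) m q‖ * ‖SMF_L1‖ ≤ ‖SMF_g a (j + 2) m q‖ * 1 :=
            mul_le_mul_of_nonneg_left SMF_norm_L1 (norm_nonneg _)
        _ ≤ _ := by rw [mul_one]; exact SMF_bound a ha (j + 2) m α₀ q hq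
    · rw [norm_smul, norm_mul]
      have : ‖(2 * Real.pi * I : ℂ)‖ = 2 * Real.pi := by
        simp [abs_of_pos Real.pi_pos]
      rw [this, mul_assoc]
      refine mul_le_mul_of_nonneg_left ?_ (by positivity)
      calc ‖SMF_g a (j + 1) m q‖ * ‖SMF_L2‖ ≤ ‖SMF_g a (j + 1) m q‖ * 1 :=
            mul_le_mul_of_nonneg_left SMF_norm_L2 (norm_nonneg _)
        _ ≤ _ := by rw [mul_one]; exact SMF_bound a ha (j + 1) m α₀ q hq

theorem SMF_open : IsOpen {q : ℝ × ℝ | 0 < q.1} := isOpen_lt continuous_const continuous_fst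

theorem SMF_contf_nat (a : ℝ) (ha : 0 < a) (n : ℕ) :
    ∀ j : ℕ, ContDiffOn ℝ n (SMF_f a j) {q : ℝ × ℝ | 0 < q.1} := by
  induction n with
  | zero =>
    intro j
    refine contDiffOn_zero.2 ?_
    intro p hp
    exact (SMF_hasF_f a ha j p hp).continuousAt.continuousWithinAt
  | succ n ih =>
    intro j
    have : ((n + 1 : ℕ) : WithTop ℕ∞) = (n : WithTop ℕ∞) + 1 := by push_cast; rfl
    rw [this, contDiffOn_succ_iff_fderiv_of_isOpen SMF_open]
    refine ⟨fun p hp => (SMF_hasF_f a ha j p hp).differentiableAt.differentiableWithinAt, ?_, ?_⟩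
    · intro h
      exact absurd h (by simp)
    · have h1 : ContDiffOn ℝ n (fun p => (-(a : ℂ) * SMF_f a (j + 2) p) • SMF_L1
          + (2 * Real.pi * I * SMF_f a (j + 1) p) • SMF_L2) {q : ℝ × ℝ | 0 < q.1} :=
        ((contDiffOn_const.mul (ih (j + 2))).smul contDiffOn_const).add
          ((contDiffOn_const.mul (ih (j + 1))).smul contDiffOn_const)
      refine h1.congr ?_
      intro p hp
      exact (SMF_hasF_f a ha j p hp).fderiv

theorem SMF_contf (a : ℝ) (ha : 0 < a) (j : ℕ) :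
    ContDiffOn ℝ ∞ (SMF_f a j) {q : ℝ × ℝ | 0 < q.1} :=
  contDiffOn_infty.2 fun n => SMF_contf_nat a ha n j

theorem SMF_thd_eq (k : ℕ) (hk : 1 ≤ k) (p : ℝ × ℝ) (hp : 0 < p.1) :
    thd k p = (SMF_f (2 * Real.pi ^ 2 / k) 0 (p.1⁻¹, p.2 / p.1 - 1 / 2)).re := by
  have hk0 : (0 : ℝ) < k := by exact_mod_cast hk
  have ha : 0 < 2 * Real.pi ^ 2 / (k : ℝ) := by positivity
  have hs := SMF_summ_g (2 * Real.pi ^ 2 / k) ha 0 (p.1⁻¹, p.2 / p.1 - 1 / 2) (inv_pos.2 hp)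
  unfold SMF_f thd
  rw [Complex.re_tsum hs]
  refine tsum_congr fun m => ?_
  unfold SMF_g
  rw [pow_zero, one_mul, Complex.exp_re]
  have e1 : (((-(2 * Real.pi ^ 2 / (k : ℝ) * (m : ℝ) ^ 2 * (p.1)⁻¹) : ℝ) : ℂ)
      + ((2 * Real.pi * m * (p.2 / p.1 - 1 / 2) : ℝ) : ℂ) * I).re
      = -(2 * Real.pi ^ 2 * (m : ℝ) ^ 2) / (k * p.1) := by
    simp only [Complex.add_re, Complex.ofReal_re, Complex.mul_re, Complex.ofReal_im,
      Complex.I_re, Complex.I_im, mul_zero, zero_mul, sub_self, add_zero]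
    field_simp
  have e2 : (((-(2 * Real.pi ^ 2 / (k : ℝ) * (m : ℝ) ^ 2 * (p.1)⁻¹) : ℝ) : ℂ)
      + ((2 * Real.pi * m * (p.2 / p.1 - 1 / 2) : ℝ) : ℂ) * I).im
      = 2 * Real.pi * m * (p.2 / p.1 - 1 / 2) := by
    simp only [Complex.add_im, Complex.ofReal_re, Complex.mul_im, Complex.ofReal_im,
      Complex.I_re, Complex.I_im, mul_zero, mul_one, zero_add, add_zero]
  rw [e1, e2]

theorem SMF_thd_smooth (k : ℕ) (hk : 1 ≤ k) :
    ContDiffOn ℝ ∞ (thd k) {p : ℝ × ℝ | 0 < p.1} := by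
  have hk0 : (0 : ℝ) < k := by exact_mod_cast hk
  have ha : 0 < 2 * Real.pi ^ 2 / (k : ℝ) := by positivity
  have h1 : ContDiffOn ℝ ∞ (fun p : ℝ × ℝ => (p.1⁻¹, p.2 / p.1 - 1 / 2))
      {p : ℝ × ℝ | 0 < p.1} := by
    refine ContDiffOn.prodMk ?_ ?_
    · exact contDiff_fst.contDiffOn.inv fun p hp => (ne_of_gt hp)
    · exact (contDiff_snd.contDiffOn.div contDiff_fst.contDiffOn fun p hp => (ne_of_gt hp)).sub
        contDiffOn_const
  have h2 := (SMF_contf (2 * Real.pi ^ 2 / k) ha 0).comp h1 (fun p hp => by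
    show 0 < p.1⁻¹
    exact inv_pos.2 hp)
  have h3 : ContDiffOn ℝ ∞ (fun p : ℝ × ℝ =>
      (SMF_f (2 * Real.pi ^ 2 / k) 0 (p.1⁻¹, p.2 / p.1 - 1 / 2)).re) {p : ℝ × ℝ | 0 < p.1} :=
    Complex.reCLM.contDiff.comp_contDiffOn h2
  exact h3.congr fun p hp => SMF_thd_eq k hk p hp

theorem SMF_thd_pos (k : ℕ) (hk : 1 ≤ k) (p : ℝ × ℝ) (hp : 0 < p.1) : 0 < thd k p := by
  have hk0 : (0 : ℝ) < k := by exact_mod_cast hk
  set t : ℝ := 2 * Real.pi / (k * p.1) with ht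
  have hpi := Real.pi_pos
  have ht0 : 0 < t := by positivity
  set y : ℝ := p.2 / p.1 - 1 / 2 with hy
  have hτ : 0 < (I * (t : ℂ)).im := by simp [ht0]
  have h1 : thd k p = (jacobiTheta₂ (y : ℂ) (I * t)).re := by
    have hs := (hasSum_jacobiTheta₂_term (y : ℂ) hτ)
    rw [← hs.tsum_eq, Complex.re_tsum hs.summable]
    unfold thd
    refine tsum_congr fun m => ?_
    unfold jacobiTheta₂_term
    have e : (2 * Real.pi * I * m * y + Real.pi * I * m ^ 2 * (I * t) : ℂ)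
        = ((-(Real.pi * (m : ℝ) ^ 2 * t) : ℝ) : ℂ) + ((2 * Real.pi * m * y : ℝ) : ℂ) * I := by
      push_cast
      linear_combination (Real.pi * (m : ℂ) ^ 2 * t) * Complex.I_sq
    rw [e, Complex.exp_re]
    have e1 : (((-(Real.pi * (m : ℝ) ^ 2 * t) : ℝ) : ℂ)
        + ((2 * Real.pi * m * y : ℝ) : ℂ) * I).re = -(2 * Real.pi ^ 2 * (m : ℝ) ^ 2) / (k * p.1) := by
      simp only [Complex.add_re, Complex.ofReal_re, Complex.mul_re, Complex.ofReal_im,
        Complex.I_re, Complex.I_im, mul_zero, zero_mul, sub_self, add_zero]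
      rw [ht]
      field_simp
    have e2 : (((-(Real.pi * (m : ℝ) ^ 2 * t) : ℝ) : ℂ)
        + ((2 * Real.pi * m * y : ℝ) : ℂ) * I).im = 2 * Real.pi * m * y := by
      simp only [Complex.add_im, Complex.ofReal_re, Complex.mul_im, Complex.ofReal_im,
        Complex.I_re, Complex.I_im, mul_zero, mul_one, zero_add, add_zero]
    rw [e1, e2]
  have h2 := jacobiTheta₂_functional_equation (y : ℂ) (I * t)
  have ht0' : (t : ℂ) ≠ 0 := by exact_mod_cast ht0.ne'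
  have a1 : (-I * (I * (t : ℂ))) ^ (1 / 2 : ℂ) = ((t ^ (1 / 2 : ℝ) : ℝ) : ℂ) := by
    have : -I * (I * (t : ℂ)) = (t : ℂ) := by
      linear_combination (-(t : ℂ)) * Complex.I_sq
    rw [this, Complex.ofReal_cpow ht0.le]
    push_cast
    rfl
  have a2 : cexp (-Real.pi * I * (y : ℂ) ^ 2 / (I * t)) = ((Real.exp (-(Real.pi * y ^ 2 / t)) : ℝ) : ℂ) := by
    rw [Complex.ofReal_exp]
    congr 1
    push_cast
    have := Complex.I_ne_zero
    field_simp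
  have hτ' : 0 < (-1 / (I * (t : ℂ))).im := by
    have : (-1 / (I * (t : ℂ))) = I * ((1 / t : ℝ) : ℂ) := by
      push_cast
      have := Complex.I_ne_zero
      field_simp
      rw [Complex.I_sq]
    rw [this]
    simp [ht0]
  have a3 : jacobiTheta₂ ((y : ℂ) / (I * t)) (-1 / (I * t))
      = ((∑' m : ℤ, Real.exp (2 * Real.pi * m * y / t - Real.pi * (m : ℝ) ^ 2 / t) : ℝ) : ℂ) ∧
      Summable (fun m : ℤ => Real.exp (2 * Real.pi * m * y / t - Real.pi * (m : ℝ) ^ 2 / t)) := by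
    have hs := (hasSum_jacobiTheta₂_term ((y : ℂ) / (I * t)) hτ')
    have e : ∀ m : ℤ, jacobiTheta₂_term m ((y : ℂ) / (I * t)) (-1 / (I * t))
        = ((Real.exp (2 * Real.pi * m * y / t - Real.pi * (m : ℝ) ^ 2 / t) : ℝ) : ℂ) := by
      intro m
      unfold jacobiTheta₂_term
      rw [Complex.ofReal_exp]
      congr 1
      push_cast
      have := Complex.I_ne_zero
      field_simp
      ring
    simp_rw [e] at hs
    have hs2 := Complex.hasSum_re hs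
    simp only [Complex.ofReal_re] at hs2
    refine ⟨?_, hs2.summable⟩
    rw [← hs.tsum_eq, Complex.ofReal_tsum]
  rw [a1, a2, a3.1] at h2
  have h3 : thd k p = 1 / t ^ (1 / 2 : ℝ) * Real.exp (-(Real.pi * y ^ 2 / t))
      * ∑' m : ℤ, Real.exp (2 * Real.pi * m * y / t - Real.pi * (m : ℝ) ^ 2 / t) := by
    rw [h1, h2, ← Complex.ofReal_re (1 / t ^ (1 / 2 : ℝ) * Real.exp (-(Real.pi * y ^ 2 / t))
      * ∑' m : ℤ, Real.exp (2 * Real.pi * m * y / t - Real.pi * (m : ℝ) ^ 2 / t))]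
    congr 1
    push_cast
    ring
  rw [h3]
  have h4 : 0 < ∑' m : ℤ, Real.exp (2 * Real.pi * m * y / t - Real.pi * (m : ℝ) ^ 2 / t) :=
    a3.2.tsum_pos (fun m => (Real.exp_pos _).le) 0 (Real.exp_pos _)
  have h5 : 0 < t ^ (1 / 2 : ℝ) := Real.rpow_pos_of_pos ht0 _
  positivity

theorem SMF_shb_smooth (j : ℕ) (hj : 1 ≤ j) :
    ContDiffOn ℝ ∞ (shb j) {p : ℝ × ℝ | 0 < p.1} := by
  have hj0 : (0 : ℝ) < j := by exact_mod_cast hj
  have h1 : ContDiff ℝ ∞ (fun p : ℝ × ℝ => (j : ℝ) * p.1 / 2) := by fun_prop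
  have h2 : ContDiff ℝ ∞ (fun p : ℝ × ℝ => Real.sinh ((j : ℝ) * p.1 / 2)) :=
    Real.contDiff_sinh.comp h1
  unfold shb
  refine ContDiffOn.log (h2.contDiffOn.div h1.contDiffOn ?_) ?_
  · intro p hp
    have : 0 < p.1 := hp
    positivity
  · intro p hp
    have hp0 : 0 < p.1 := hp
    have h3 : 0 < (j : ℝ) * p.1 / 2 := by positivity
    have h4 : 0 < Real.sinh ((j : ℝ) * p.1 / 2) := Real.sinh_pos_iff.2 h3
    exact (div_pos h4 h3).ne'

theorem SMF_FU_smooth : ContDiffOn ℝ ∞ FU {p : ℝ × ℝ | 0 < p.1} := by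
  unfold FU
  refine ContDiffOn.sub ?_ ?_
  · exact (contDiff_const.mul (contDiff_snd.pow 2)).contDiffOn.div contDiff_fst.contDiffOn
      fun p hp => (ne_of_gt hp)
  · exact contDiffOn_const.mul (ContDiffOn.log contDiff_fst.contDiffOn fun p hp => (ne_of_gt hp))

theorem SMF_FD_smooth : ContDiffOn ℝ ∞ FD {p : ℝ × ℝ | 0 < p.1} := by
  have hl : ∀ k : ℕ, 1 ≤ k → ContDiffOn ℝ ∞ (fun p => Real.log (thd k p)) {p : ℝ × ℝ | 0 < p.1} :=
    fun k hk => ContDiffOn.log (SMF_thd_smooth k hk) fun p hp => (SMF_thd_pos k hk p hp).ne'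
  unfold FD
  exact ((((contDiffOn_const.mul (hl 1 le_rfl)).add (contDiffOn_const.mul (hl 2 (by norm_num)))).add
    (contDiffOn_const.mul (hl 4 (by norm_num)))).sub
    (contDiffOn_const.mul (SMF_shb_smooth 1 le_rfl))).sub
    (contDiffOn_const.mul (SMF_shb_smooth 4 (by norm_num)))

theorem st_SMF : ST_SMF := by
  refine ⟨SMF_FU_smooth.add SMF_FD_smooth, ?_⟩
  intro ε hε
  unfold Feps
  refine SMF_FU_smooth.add (ContDiffOn.mul ?_ SMF_FD_smooth)
  have h1 : ContDiff ℝ ∞ (fun p : ℝ × ℝ => p.1 / ε - 1) := by fun_prop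
  exact (Real.smoothTransition.contDiff.comp h1).contDiffOn

theorem st_SMH : ST_SMH := by
  intro N ε hN hε
  have hN0 : (0 : ℝ) < N := by exact_mod_cast hN
  have h := st_SMF.2 ε hε
  unfold potH
  have him : ContDiff ℝ ∞ (fun z : ℂ => z.im) := Complex.imCLM.contDiff
  have h1 : ContDiff ℝ ∞ (fun x : E => (4 * Real.pi * x.1.im / N, 4 * Real.pi * x.2.im)) := by
    refine ContDiff.prodMk ?_ ?_
    · exact (contDiff_const.mul (him.comp contDiff_fst)).div_const _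
    · exact contDiff_const.mul (him.comp contDiff_snd)
  refine h.comp h1.contDiffOn ?_
  intro x hx
  have hx0 : 0 < x.1.im := hx
  have := Real.pi_pos
  show 0 < 4 * Real.pi * x.1.im / N
  positivity

end RicP
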